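import Mathlib

set_option autoImplicit false

open MeasureTheory Set

namespace Pool.Agent.H7.SMP

/-- The Laplacian `∑ ∂_i ∂_i φ`. -/
noncomputable def lap {N : ℕ} (φ : EuclideanSpace ℝ (Fin N) → ℝ) (x : EuclideanSpace ℝ (Fin N)) : ℝ :=
  ∑ i, fderiv ℝ (fun y => fderiv ℝ φ y (EuclideanSpace.single i 1)) x (EuclideanSpace.single i 1)

/-- The hypotheses of the problem on `u` and `V` in the open set `Ω`: `u ∈ L¹(Ω) ∩ C(Ω)`, `u ≥ 0`,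
`V u ∈ L¹(Ω)`, `Δu ≤ V u` in the sense of distributions, and `supp u` is a compact subset of `Ω`. -/
structure Hyp {N : ℕ} (Ω : Set (EuclideanSpace ℝ (Fin N))) (V u : EuclideanSpace ℝ (Fin N) → ℝ) :
    Prop where
  measV : Measurable V
  cont : ContinuousOn u Ω
  integ : IntegrableOn u Ω
  nonneg : ∀ x ∈ Ω, 0 ≤ u x
  integVu : IntegrableOn (fun x => V x * u x) Ω
  distr : ∀ φ : EuclideanSpace ℝ (Fin N) → ℝ, ContDiff ℝ (⊤ : ℕ∞) φ → HasCompactSupport φ →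
    tsupport φ ⊆ Ω → (∀ x, 0 ≤ φ x) →
    ∫ x in Ω, u x * lap φ x ≤ ∫ x in Ω, V x * u x * φ x
  supp : ∃ K : Set (EuclideanSpace ℝ (Fin N)), IsCompact K ∧ K ⊆ Ω ∧ ∀ x ∈ Ω, x ∉ K → u x = 0

end Pool.Agent.H7.SMP
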