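import Pool.Agent.H7.SMP.Radial

set_option autoImplicit false

open MeasureTheory Set Filter Topology Metric
open scoped ENNReal

namespace Pool.Agent.H7.SMP

section

variable {N : ℕ} (x0 : EuclideanSpace ℝ (Fin N)) (r : ℝ)

/-- shells -/
def shell (k : ℕ) : Set (EuclideanSpace ℝ (Fin N)) := {x | a k < sx x0 r x ∧ sx x0 r x < a k + w k}

lemma pow_sub_le (M : ℕ) {x y : ℝ} (hy : 0 ≤ y) (hxy : y ≤ x) (hx : x ≤ 1) :
    x ^ M - y ^ M ≤ M * (x - y) := by
  induction M with
  | zero => simp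
  | succ M ih =>
    have h1 : x ^ (M + 1) - y ^ (M + 1) = x * (x ^ M - y ^ M) + y ^ M * (x - y) := by ring
    have h2 : 0 ≤ x ^ M - y ^ M := sub_nonneg.2 (pow_le_pow_left₀ hy hxy M)
    have h3 : y ^ M ≤ 1 := pow_le_one₀ hy (hxy.trans hx)
    rw [h1]
    push_cast
    nlinarith [mul_le_mul_of_nonneg_right hx h2, mul_le_mul_of_nonneg_right h3 (sub_nonneg.2 hxy)]

lemma shell_meas (k : ℕ) : MeasurableSet (shell x0 r k) :=
  (measurableSet_lt measurable_const (sx_cont x0 r).measurable).inter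
    (measurableSet_lt (sx_cont x0 r).measurable measurable_const)

/-- volume of the shells -/
lemma shell_vol (hr : 0 < r) (k : ℕ) : (volume : Measure (EuclideanSpace ℝ (Fin N))).real (shell x0 r k) ≤
    (2 * N * r ^ N * (volume : Measure (EuclideanSpace ℝ (Fin N))).real (ball 0 1)) * w k := by
  have ha := a_pos k
  have hw := w_pos k
  have hwle := w_le k
  have ha1 : a k ≤ 1 / 2 := by
    unfold a
    calc (1 / 2 : ℝ) ^ (k + 1) ≤ (1 / 2) ^ 1 := pow_le_pow_of_le_one (by norm_num) (by norm_num) (by omega)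
      _ = 1 / 2 := pow_one _
  set X := Real.sqrt (1 - a k) with hX
  set Y := Real.sqrt (1 - a k - w k) with hY
  have hXsq : X ^ 2 = 1 - a k := Real.sq_sqrt (by linarith)
  have hYsq : Y ^ 2 = 1 - a k - w k := Real.sq_sqrt (by linarith)
  have hX0 : 0 < X := Real.sqrt_pos.2 (by linarith)
  have hY0 : 0 < Y := Real.sqrt_pos.2 (by linarith)
  have hYX : Y ≤ X := Real.sqrt_le_sqrt (by linarith)
  have hX1 : X ≤ 1 := by nlinarith
  have hXhalf : 1 / 2 ≤ X := by nlinarith
  have hdiff : X - Y ≤ 2 * w k := by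
    have h1 : (X - Y) * (X + Y) = w k := by
      have : (X - Y) * (X + Y) = X ^ 2 - Y ^ 2 := by ring
      rw [this, hXsq, hYsq]; ring
    nlinarith [sub_nonneg.2 hYX]
  have hsub : shell x0 r k ⊆ ball x0 (r * X) \ ball x0 (r * Y) := by
    intro x hx
    obtain ⟨h1, h2⟩ := hx
    unfold sx at h1 h2
    constructor
    · rw [mem_ball, dist_eq_norm]
      have h3 : ‖x - x0‖ ^ 2 / r ^ 2 < X ^ 2 := by rw [hXsq]; linarith
      rw [div_lt_iff₀ (by positivity)] at h3
      have h4 : ‖x - x0‖ ^ 2 < (r * X) ^ 2 := by rw [mul_pow]; linarith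
      exact lt_of_pow_lt_pow_left₀ 2 (by positivity) h4
    · rw [mem_ball, dist_eq_norm, not_lt]
      have h3 : Y ^ 2 < ‖x - x0‖ ^ 2 / r ^ 2 := by rw [hYsq]; linarith
      rw [lt_div_iff₀ (by positivity)] at h3
      have h4 : (r * Y) ^ 2 < ‖x - x0‖ ^ 2 := by rw [mul_pow]; linarith
      exact (lt_of_pow_lt_pow_left₀ 2 (norm_nonneg _) h4).le
  have hball : ∀ ρ : ℝ, 0 < ρ → (volume : Measure (EuclideanSpace ℝ (Fin N))).real (ball x0 ρ) =
      ρ ^ N * (volume : Measure (EuclideanSpace ℝ (Fin N))).real (ball 0 1) := by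
    intro ρ hρ
    rw [measureReal_def, Measure.addHaar_ball_of_pos volume x0 hρ, ENNReal.toReal_mul,
      ENNReal.toReal_ofReal (by positivity), finrank_euclideanSpace_fin, measureReal_def]
  have hss : ball x0 (r * Y) ⊆ ball x0 (r * X) := ball_subset_ball (mul_le_mul_of_nonneg_left hYX hr.le)
  calc (volume : Measure (EuclideanSpace ℝ (Fin N))).real (shell x0 r k)
      ≤ (volume : Measure (EuclideanSpace ℝ (Fin N))).real (ball x0 (r * X) \ ball x0 (r * Y)) :=
        measureReal_mono hsub (ne_top_of_le_ne_top measure_ball_lt_top.ne (measure_mono sdiff_subset))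
    _ = (volume : Measure (EuclideanSpace ℝ (Fin N))).real (ball x0 (r * X)) -
        (volume : Measure (EuclideanSpace ℝ (Fin N))).real (ball x0 (r * Y)) :=
        measureReal_sdiff hss measurableSet_ball
    _ = (r ^ N * (volume : Measure (EuclideanSpace ℝ (Fin N))).real (ball 0 1)) * (X ^ N - Y ^ N) := by
        rw [hball _ (by positivity), hball _ (by positivity), mul_pow, mul_pow]; ring
    _ ≤ (r ^ N * (volume : Measure (EuclideanSpace ℝ (Fin N))).real (ball 0 1)) * (N * (2 * w k)) := by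
        refine mul_le_mul_of_nonneg_left ?_ (mul_nonneg (by positivity) measureReal_nonneg)
        exact (pow_sub_le N hY0.le hYX hX1).trans (mul_le_mul_of_nonneg_left hdiff (by positivity))
    _ = _ := by ring

/-- the numerical series -/
lemma series (q : ℝ) (hq0 : 0 < q) (hq1 : q < 1) :
    Summable fun k : ℕ => (2 ^ (k + 8) / w (k + 1)) ^ q * w k := by
  have hterm : ∀ k : ℕ, (2 ^ (k + 8) / w (k + 1)) ^ q * w k ≤
      (2 : ℝ) ^ (20 + 16 / (1 - q)) * (1 / 2) ^ k := by
    intro k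
    have h1 : (2 : ℝ) ^ (k + 8) / w (k + 1) = (2 : ℝ) ^ ((k + 8 + (k + 3) ^ 2 : ℝ)) := by
      unfold w
      have : (1 / 2 : ℝ) ^ ((k + 1 + 2) ^ 2) = ((2 : ℝ) ^ ((k + 3) ^ 2))⁻¹ := by
        rw [one_div, inv_pow]
      rw [this, div_inv_eq_mul, ← pow_add, ← Real.rpow_natCast]
      congr 1
      push_cast
      ring
    have h2 : w k = (2 : ℝ) ^ (-((k + 2) ^ 2 : ℝ)) := by
      unfold w
      rw [one_div, inv_pow, Real.rpow_neg (by norm_num), ← Real.rpow_natCast]
      congr 1
      push_cast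
      rfl
    have h3 : (1 / 2 : ℝ) ^ k = (2 : ℝ) ^ (-(k : ℝ)) := by
      rw [one_div, inv_pow, Real.rpow_neg (by norm_num), Real.rpow_natCast]
    rw [h1, h2, h3, ← Real.rpow_mul (by norm_num), ← Real.rpow_add (by norm_num),
      ← Real.rpow_add (by norm_num)]
    apply Real.rpow_le_rpow_of_exponent_le (by norm_num)
    have hk : (0 : ℝ) ≤ k := Nat.cast_nonneg k
    have h1q : 0 < 1 - q := by linarith
    -- (1-q) k² - 8 k + 16/(1-q) ≥ 0
    have h4 : 0 ≤ (1 - q) * k ^ 2 - 8 * k + 16 / (1 - q) := by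
      have : (1 - q) * k ^ 2 - 8 * k + 16 / (1 - q) = ((1 - q) * k - 4) ^ 2 / (1 - q) := by
        field_simp; ring
      rw [this]; positivity
    nlinarith [mul_nonneg hk (sub_nonneg.2 hq1.le)]
  refine Summable.of_nonneg_of_le (fun k => ?_) hterm (T_sum_le.mul_left _)
  have := w_pos k
  have := w_pos (k + 1)
  positivity

theorem V_memLp (hr : 0 < r) (p : ℝ≥0∞) (hp1 : 1 ≤ p) (hp2 : p < 2) :
    MemLp (fun x : EuclideanSpace ℝ (Fin N) => Real.sqrt (max (VV x0 r x) 0)) p volume := by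
  have hpt : p ≠ ∞ := (hp2.trans_le le_top).ne
  have hp0 : p ≠ 0 := by intro h; rw [h] at hp1; simp at hp1
  have hpr0 : 0 < p.toReal := ENNReal.toReal_pos hp0 hpt
  have hpr2 : p.toReal < 2 := by
    have := (ENNReal.toReal_lt_toReal hpt (by norm_num)).2 hp2
    simpa using this
  set q : ℝ := p.toReal / 2 with hq
  have hq0 : 0 < q := by positivity
  have hq1 : q < 1 := by rw [hq]; linarith
  have hVm := VV_meas x0 r
  refine ⟨((hVm.max measurable_const).sqrt).aestronglyMeasurable, ?_⟩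
  rw [eLpNorm_lt_top_iff_lintegral_rpow_enorm_lt_top hp0 hpt]
  have hpt' : ∀ x : EuclideanSpace ℝ (Fin N), ‖Real.sqrt (max (VV x0 r x) 0)‖ₑ ^ p.toReal =
      ENNReal.ofReal ((VV x0 r x) ^ q) := by
    intro x
    have hV := VV_nonneg x0 r x
    rw [max_eq_left hV, Real.enorm_eq_ofReal (Real.sqrt_nonneg _),
      ENNReal.ofReal_rpow_of_nonneg (Real.sqrt_nonneg _) hpr0.le, Real.sqrt_eq_rpow,
      ← Real.rpow_mul hV]
    congr 2
    rw [hq]; ring
  simp_rw [hpt']
  set A : ℝ := 2 * N * r ^ N * (volume : Measure (EuclideanSpace ℝ (Fin N))).real (ball 0 1) with hA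
  have hA0 : 0 ≤ A := mul_nonneg (by positivity) measureReal_nonneg
  have hsupp : ∀ x : EuclideanSpace ℝ (Fin N), x ∉ ⋃ k, shell x0 r k →
      ENNReal.ofReal ((VV x0 r x) ^ q) = 0 := by
    intro x hx
    have : h (sx x0 r x) = 0 := by
      by_contra hne
      obtain ⟨k, hk⟩ := h_ne hne
      exact hx (mem_iUnion.2 ⟨k, hk⟩)
    unfold VV
    rw [this, zero_div, mul_zero, Real.zero_rpow hq0.ne']
    simp
  have h1 : ∫⁻ x : EuclideanSpace ℝ (Fin N), ENNReal.ofReal ((VV x0 r x) ^ q) =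
      ∫⁻ x in ⋃ k, shell x0 r k, ENNReal.ofReal ((VV x0 r x) ^ q) := by
    rw [← lintegral_indicator (MeasurableSet.iUnion fun k => shell_meas x0 r k)]
    refine lintegral_congr fun x => ?_
    by_cases hx : x ∈ ⋃ k, shell x0 r k
    · rw [indicator_of_mem hx]
    · rw [indicator_of_notMem hx, hsupp x hx]
  rw [h1]
  refine lt_of_le_of_lt (lintegral_iUnion_le _ _) ?_
  have h2 : ∀ k, ∫⁻ x in shell x0 r k, ENNReal.ofReal ((VV x0 r x) ^ q) ≤
      ENNReal.ofReal (((4 / r ^ 2) ^ q * A) * ((2 ^ (k + 8) / w (k + 1)) ^ q * w k)) := by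
    intro k
    have hw := w_pos k
    have hw1 := w_pos (k + 1)
    have hfin : volume (shell x0 r k) ≠ ∞ := by
      refine ne_top_of_le_ne_top (b := volume (ball x0 r)) measure_ball_lt_top.ne (measure_mono ?_)
      intro x hx
      by_contra hcon
      have := sx_nonpos x0 r hr hcon
      have := hx.1
      have := a_pos k
      linarith
    calc ∫⁻ x in shell x0 r k, ENNReal.ofReal ((VV x0 r x) ^ q)
        ≤ ∫⁻ _ in shell x0 r k, ENNReal.ofReal ((4 / r ^ 2 * (2 ^ (k + 8) / w (k + 1))) ^ q) := by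
          refine setLIntegral_mono' (shell_meas x0 r k) fun x hx => ENNReal.ofReal_le_ofReal ?_
          refine Real.rpow_le_rpow (VV_nonneg x0 r x) ?_ hq0.le
          unfold VV
          exact mul_le_mul_of_nonneg_left (quot_le hx.1 hx.2) (by positivity)
      _ = ENNReal.ofReal ((4 / r ^ 2 * (2 ^ (k + 8) / w (k + 1))) ^ q) *
            ENNReal.ofReal ((volume : Measure (EuclideanSpace ℝ (Fin N))).real (shell x0 r k)) := by
          rw [setLIntegral_const, ofReal_measureReal hfin]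
      _ = ENNReal.ofReal ((4 / r ^ 2 * (2 ^ (k + 8) / w (k + 1))) ^ q *
            (volume : Measure (EuclideanSpace ℝ (Fin N))).real (shell x0 r k)) := by
          rw [ENNReal.ofReal_mul (by positivity)]
      _ ≤ _ := by
          apply ENNReal.ofReal_le_ofReal
          rw [Real.mul_rpow (by positivity) (by positivity)]
          calc _ ≤ (4 / r ^ 2) ^ q * (2 ^ (k + 8) / w (k + 1)) ^ q * (A * w k) :=
                mul_le_mul_of_nonneg_left (shell_vol x0 r hr k) (by positivity)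
            _ = _ := by ring
  refine lt_of_le_of_lt (ENNReal.tsum_le_tsum h2) ?_
  have hs := (series q hq0 hq1).mul_left ((4 / r ^ 2) ^ q * A)
  rw [← ENNReal.ofReal_tsum_of_nonneg (fun k => ?_) hs]
  · exact ENNReal.ofReal_lt_top
  · have hw := w_pos k
    have hw1 := w_pos (k + 1)
    positivity

/-- main theorem -/
theorem main (hr : 0 < r) (Ω : Set (EuclideanSpace ℝ (Fin N))) (hΩ : IsOpen Ω)
    (hsub : closedBall x0 r ⊆ Ω) : Hyp Ω (VV x0 r) (uu x0 r) ∧ uu x0 r x0 ≠ 0 := by
  have hu0 : ∀ x, x ∉ Ω → uu x0 r x = 0 := by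
    intro x hx
    unfold uu
    exact g_zero (sx_nonpos x0 r hr fun hb => hx (hsub (ball_subset_closedBall hb)))
  have hcu : HasCompactSupport (uu x0 r) := cs_of x0 r hr g fun s hs => g_zero hs
  have hch : HasCompactSupport (fun x => VV x0 r x * uu x0 r x) := by
    refine HasCompactSupport.intro (isCompact_closedBall x0 r) fun x hx => ?_
    rw [VV_mul, h_zero (sx_nonpos x0 r hr fun hb => hx (ball_subset_closedBall hb)), mul_zero]
  have hVuc : Continuous (fun x => VV x0 r x * uu x0 r x) := by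
    have : (fun x => VV x0 r x * uu x0 r x) = fun x => 4 / r ^ 2 * h (sx x0 r x) := by
      funext x; exact VV_mul x0 r x
    rw [this]
    exact continuous_const.mul (h_cont.comp (sx_cont x0 r))
  refine ⟨⟨VV_meas x0 r, (uu_cont x0 r).continuousOn,
    ((uu_cont x0 r).integrable_of_hasCompactSupport hcu).integrableOn,
    fun x _ => g_nonneg _, (hVuc.integrable_of_hasCompactSupport hch).integrableOn, ?_,
    ⟨closedBall x0 r, isCompact_closedBall x0 r, hsub, fun x _ hx => ?_⟩⟩, ?_⟩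
  · intro φ hφ hc _ hφ0
    have h1 := ibp x0 r hr φ hφ hc hφ0
    rw [setIntegral_eq_integral_of_forall_compl_eq_zero (fun x hx => by rw [hu0 x hx, zero_mul]),
      setIntegral_eq_integral_of_forall_compl_eq_zero (fun x hx => by rw [hu0 x hx, mul_zero, zero_mul])]
    exact h1
  · exact g_zero (sx_nonpos x0 r hr fun hb => hx (ball_subset_closedBall hb))
  · unfold uu sx
    have : 1 - ‖x0 - x0‖ ^ 2 / r ^ 2 = 1 := by simp
    rw [this]
    exact (g_pos one_pos).ne'

end

end Pool.Agent.H7.SMP
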