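import Mathlib

set_option autoImplicit false

open MeasureTheory Set Filter Topology

namespace Pool.Agent.H7.SMP

/-- bump -/
noncomputable def b (x : ℝ) : ℝ := max 0 (x * (1 - x))

lemma b_cont : Continuous b := by unfold b; fun_prop
lemma b_nonneg (x : ℝ) : 0 ≤ b x := le_max_left _ _
lemma b_le (x : ℝ) : b x ≤ 1 / 4 := by
  unfold b
  refine max_le (by norm_num) ?_
  nlinarith [sq_nonneg (x - 1 / 2)]
lemma b_ne {x : ℝ} (h : b x ≠ 0) : 0 < x ∧ x < 1 := by
  unfold b at h
  have h1 : 0 < x * (1 - x) := by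
    by_contra hcon
    exact h (max_eq_left (not_lt.1 hcon))
  constructor
  · by_contra hx
    nlinarith [not_lt.1 hx]
  · by_contra hx
    nlinarith [not_lt.1 hx]
lemma b_ge {x : ℝ} (h1 : 1 / 4 ≤ x) (h2 : x ≤ 3 / 4) : 3 / 16 ≤ b x := by
  unfold b
  refine le_max_of_le_right ?_
  nlinarith [mul_nonneg (sub_nonneg.2 h1) (sub_nonneg.2 h2)]

/-- left end points of the shells -/
noncomputable def a (k : ℕ) : ℝ := (1 / 2) ^ (k + 1)
/-- widths of the shells -/
noncomputable def w (k : ℕ) : ℝ := (1 / 2) ^ ((k + 2) ^ 2)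

lemma a_pos (k : ℕ) : 0 < a k := by unfold a; positivity
lemma w_pos (k : ℕ) : 0 < w k := by unfold w; positivity
lemma a_succ (k : ℕ) : a (k + 1) = a k / 2 := by unfold a; rw [pow_succ]; ring
lemma w_le (k : ℕ) : w k ≤ a k / 2 := by
  unfold w a
  have h1 : (1 / 2 : ℝ) ^ ((k + 2) ^ 2) ≤ (1 / 2) ^ (k + 2) :=
    pow_le_pow_of_le_one (by norm_num) (by norm_num) (by nlinarith)
  have h2 : (1 / 2 : ℝ) ^ (k + 2) = (1 / 2) ^ (k + 1) / 2 := by rw [pow_succ]; ring
  linarith
lemma a_anti {j k : ℕ} (h : j ≤ k) : a k ≤ a j := by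
  unfold a
  exact pow_le_pow_of_le_one (by norm_num) (by norm_num) (by omega)
lemma aw_le {j k : ℕ} (h : j < k) : a k + w k ≤ a j := by
  have h1 := w_le k
  have h2 := a_anti (show j + 1 ≤ k from h)
  rw [a_succ] at h2
  have h3 := a_pos j
  linarith

/-- pieces of the second derivative -/
noncomputable def T (k : ℕ) (s : ℝ) : ℝ := (1 / 2) ^ k * b ((s - a k) / w k)

lemma T_cont (k : ℕ) : Continuous (T k) := by
  unfold T
  exact continuous_const.mul (b_cont.comp ((continuous_id.sub continuous_const).div_const _))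
lemma T_nonneg (k : ℕ) (s : ℝ) : 0 ≤ T k s := mul_nonneg (by positivity) (b_nonneg _)
lemma T_le (k : ℕ) (s : ℝ) : T k s ≤ (1 / 2) ^ k := by
  unfold T
  have h1 := b_le ((s - a k) / w k)
  have h2 : (0 : ℝ) < (1 / 2) ^ k := by positivity
  nlinarith
lemma T_ne {k : ℕ} {s : ℝ} (h : T k s ≠ 0) : a k < s ∧ s < a k + w k := by
  unfold T at h
  have h1 := b_ne (right_ne_zero_of_mul h)
  have hw := w_pos k
  rw [div_pos_iff_of_pos_right hw, div_lt_one hw] at h1
  constructor <;> linarith [h1.1, h1.2]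

lemma T_sum_le : Summable fun k : ℕ => (1 / 2 : ℝ) ^ k :=
  summable_geometric_of_lt_one (by norm_num) (by norm_num)

lemma T_summable (s : ℝ) : Summable fun k => T k s :=
  Summable.of_nonneg_of_le (fun k => T_nonneg k s) (fun k => T_le k s) T_sum_le

/-- the second derivative of the profile -/
noncomputable def h (s : ℝ) : ℝ := ∑' k, T k s

lemma h_cont : Continuous h :=
  continuous_tsum T_cont T_sum_le fun k s => by
    rw [Real.norm_of_nonneg (T_nonneg k s)]; exact T_le k s

lemma h_nonneg (s : ℝ) : 0 ≤ h s := tsum_nonneg fun k => T_nonneg k s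

lemma T_le_h (k : ℕ) (s : ℝ) : T k s ≤ h s := (T_summable s).le_tsum k fun j _ => T_nonneg j s

lemma h_zero {s : ℝ} (hs : s ≤ 0) : h s = 0 := by
  unfold h
  have : ∀ k, T k s = 0 := by
    intro k
    by_contra hne
    have := (T_ne hne).1
    have := a_pos k
    linarith
  simp [this]

lemma h_ne {s : ℝ} (hs : h s ≠ 0) : ∃ k, a k < s ∧ s < a k + w k := by
  by_contra hcon
  push Not at hcon
  apply hs
  unfold h
  have : ∀ k, T k s = 0 := by
    intro k
    by_contra hne
    have h1 := T_ne hne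
    have := hcon k h1.1
    linarith
  simp [this]

lemma h_eq {s : ℝ} {k : ℕ} (h1 : a k < s) (h2 : s < a k + w k) : h s = T k s := by
  unfold h
  refine tsum_eq_single k fun j hj => ?_
  by_contra hne
  have h3 := T_ne hne
  rcases lt_or_gt_of_ne hj with hlt | hgt
  · have := aw_le hlt; linarith
  · have := aw_le hgt; linarith

/-- first derivative -/
noncomputable def g1 (s : ℝ) : ℝ := ∫ r in (0 : ℝ)..s, h r
/-- the profile -/
noncomputable def g (s : ℝ) : ℝ := ∫ r in (0 : ℝ)..s, g1 r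

lemma g1_deriv (s : ℝ) : HasDerivAt g1 (h s) s :=
  intervalIntegral.integral_hasDerivAt_right (h_cont.intervalIntegrable _ _)
    (h_cont.stronglyMeasurableAtFilter _ _) h_cont.continuousAt

lemma g1_cont : Continuous g1 := continuous_iff_continuousAt.2 fun s => (g1_deriv s).continuousAt

lemma g_deriv (s : ℝ) : HasDerivAt g (g1 s) s :=
  intervalIntegral.integral_hasDerivAt_right (g1_cont.intervalIntegrable _ _)
    (g1_cont.stronglyMeasurableAtFilter _ _) g1_cont.continuousAt

lemma g_cont : Continuous g := continuous_iff_continuousAt.2 fun s => (g_deriv s).continuousAt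

lemma g1_mono : Monotone g1 := by
  apply monotone_of_deriv_nonneg (fun s => (g1_deriv s).differentiableAt)
  intro s
  rw [(g1_deriv s).deriv]
  exact h_nonneg s

lemma g1_zero {s : ℝ} (hs : s ≤ 0) : g1 s = 0 := by
  unfold g1
  rw [intervalIntegral.integral_congr (g := fun _ => (0 : ℝ))]
  · simp
  · intro x hx
    rw [uIcc_of_ge hs] at hx
    exact h_zero hx.2

lemma g1_nonneg (s : ℝ) : 0 ≤ g1 s := by
  rcases le_total s 0 with h0 | h0
  · rw [g1_zero h0]
  · have := g1_mono h0
    rwa [g1_zero le_rfl] at this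

lemma g_mono : Monotone g := by
  apply monotone_of_deriv_nonneg (fun s => (g_deriv s).differentiableAt)
  intro s
  rw [(g_deriv s).deriv]
  exact g1_nonneg s

lemma g_zero {s : ℝ} (hs : s ≤ 0) : g s = 0 := by
  unfold g
  rw [intervalIntegral.integral_congr (g := fun _ => (0 : ℝ))]
  · simp
  · intro x hx
    rw [uIcc_of_ge hs] at hx
    exact g1_zero hx.2

lemma g_nonneg (s : ℝ) : 0 ≤ g s := by
  rcases le_total s 0 with h0 | h0
  · rw [g_zero h0]
  · have := g_mono h0
    rwa [g_zero le_rfl] at this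

/-- lower bound for `g1` -/
lemma g1_lower (k : ℕ) : (1 / 2) ^ k * (3 / 16) * (w k / 2) ≤ g1 (a k + w k) := by
  have hw := w_pos k
  have ha := a_pos k
  have h1 : ∫ r in (a k + w k / 4)..(a k + 3 * w k / 4), ((1 / 2 : ℝ) ^ k * (3 / 16)) ≤
      ∫ r in (a k + w k / 4)..(a k + 3 * w k / 4), h r := by
    apply intervalIntegral.integral_mono_on (by linarith) intervalIntegrable_const
      (h_cont.intervalIntegrable _ _)
    intro r hr
    refine le_trans ?_ (T_le_h k r)
    unfold T
    refine mul_le_mul_of_nonneg_left ?_ (by positivity)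
    apply b_ge
    · rw [le_div_iff₀ hw]; linarith [hr.1]
    · rw [div_le_iff₀ hw]; linarith [hr.2]
  rw [intervalIntegral.integral_const] at h1
  have h2 : ∫ r in (a k + w k / 4)..(a k + 3 * w k / 4), h r ≤ g1 (a k + w k) := by
    unfold g1
    apply intervalIntegral.integral_mono_interval (by linarith) (by linarith) (by linarith)
    · exact Eventually.of_forall fun r => h_nonneg r
    · exact h_cont.intervalIntegrable _ _
  refine le_trans (le_of_eq ?_) (h1.trans h2)
  rw [smul_eq_mul]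
  ring

/-- lower bound for `g` -/
lemma g_lower (k : ℕ) {s : ℝ} (hs : a k ≤ s) :
    a k / 4 * ((1 / 2) ^ (k + 1) * (3 / 16) * (w (k + 1) / 2)) ≤ g s := by
  have hw := w_pos (k + 1)
  have ha := a_pos k
  have hle := w_le (k + 1)
  rw [a_succ] at hle
  have h0 := g1_lower (k + 1)
  rw [a_succ] at h0
  set m := (1 / 2) ^ (k + 1) * (3 / 16) * (w (k + 1) / 2) with hm
  have hm0 : 0 < m := by positivity
  have h1 : ∫ _ in (a k / 2 + w (k + 1))..(a k), m ≤ ∫ r in (a k / 2 + w (k + 1))..(a k), g1 r := by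
    apply intervalIntegral.integral_mono_on (by linarith) intervalIntegrable_const
      (g1_cont.intervalIntegrable _ _)
    intro r hr
    exact h0.trans (g1_mono hr.1)
  rw [intervalIntegral.integral_const, smul_eq_mul] at h1
  have h2 : ∫ r in (a k / 2 + w (k + 1))..(a k), g1 r ≤ g (a k) := by
    unfold g
    apply intervalIntegral.integral_mono_interval (by linarith) (by linarith) le_rfl
    · exact Eventually.of_forall fun r => g1_nonneg r
    · exact g1_cont.intervalIntegrable _ _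
  have h3 : a k / 4 * m ≤ (a k - (a k / 2 + w (k + 1))) * m :=
    mul_le_mul_of_nonneg_right (by linarith) hm0.le
  exact (h3.trans (h1.trans h2)).trans (g_mono hs)

lemma g_pos {s : ℝ} (hs : 0 < s) : 0 < g s := by
  obtain ⟨k, hk⟩ := exists_pow_lt_of_lt_one hs (show (1 / 2 : ℝ) < 1 by norm_num)
  have h1 : a k ≤ s := by
    have : a k ≤ (1 / 2) ^ k := by
      unfold a
      exact pow_le_pow_of_le_one (by norm_num) (by norm_num) (by omega)
    linarith
  have h2 := g_lower k h1
  have hw := w_pos (k + 1)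
  have ha := a_pos k
  have : 0 < a k / 4 * ((1 / 2) ^ (k + 1) * (3 / 16) * (w (k + 1) / 2)) := by positivity
  linarith

/-- bound of the quotient `h / g` on the shells -/
lemma quot_le {k : ℕ} {s : ℝ} (h1 : a k < s) (h2 : s < a k + w k) :
    h s / g s ≤ 2 ^ (k + 8) / w (k + 1) := by
  have hs : 0 < s := (a_pos k).trans h1
  have hg := g_pos hs
  have hw := w_pos (k + 1)
  have h3 := g_lower k h1.le
  have h4 : h s ≤ (1 / 2) ^ k := by rw [h_eq h1 h2]; exact T_le k s
  rw [div_le_div_iff₀ hg hw]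
  have h5 : (1 / 2 : ℝ) ^ k * w (k + 1) ≤
      2 ^ (k + 8) * (a k / 4 * ((1 / 2) ^ (k + 1) * (3 / 16) * (w (k + 1) / 2))) := by
    unfold a
    have e1 : (2 : ℝ) ^ k * (1 / 2) ^ k = 1 := by rw [← mul_pow]; norm_num
    have e2 : (2 : ℝ) ^ (k + 8) * ((1 / 2) ^ (k + 1) / 4 * ((1 / 2) ^ (k + 1) * (3 / 16) * (w (k + 1) / 2))) =
      (2 ^ k * (1 / 2) ^ k) * ((1 / 2) ^ k * w (k + 1)) * (2 ^ 8 * (1 / 2) * (1 / 4) * (1 / 2) * (3 / 16) * (1 / 2)) := by
      rw [pow_add, pow_succ]; ring
    rw [e2, e1]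
    have : 0 < (1 / 2 : ℝ) ^ k * w (k + 1) := by positivity
    nlinarith
  calc h s * w (k + 1) ≤ (1 / 2 : ℝ) ^ k * w (k + 1) := mul_le_mul_of_nonneg_right h4 hw.le
    _ ≤ _ := h5
    _ ≤ 2 ^ (k + 8) * g s := mul_le_mul_of_nonneg_left h3 (by positivity)

end Pool.Agent.H7.SMP
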