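import Pool.Agent.H7.SMP.OneVar
import Pool.Agent.H7.SMP.Defs

set_option autoImplicit false

open MeasureTheory Set Filter Topology Metric
open scoped ENNReal

namespace Pool.Agent.H7.SMP

section

variable {N : ℕ}


variable (x0 : EuclideanSpace ℝ (Fin N)) (r : ℝ)

/-- `s(x) = 1 - |x-x0|²/r²` -/
noncomputable def sx (x : EuclideanSpace ℝ (Fin N)) : ℝ := 1 - ‖x - x0‖ ^ 2 / r ^ 2

lemma sx_cont : Continuous (sx x0 r) := by unfold sx; fun_prop

lemma sx_deriv (x : EuclideanSpace ℝ (Fin N)) :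
    HasFDerivAt (sx x0 r) ((-(2 / r ^ 2)) • innerSL ℝ (x - x0)) x := by
  have h1 : HasFDerivAt (fun y : EuclideanSpace ℝ (Fin N) => y - x0)
      (ContinuousLinearMap.id ℝ (EuclideanSpace ℝ (Fin N))) x := (hasFDerivAt_id x).sub_const x0
  have h2 := (h1.norm_sq.mul_const (r ^ 2)⁻¹).const_sub 1
  have h3 : sx x0 r = fun y => 1 - ‖y - x0‖ ^ 2 * (r ^ 2)⁻¹ := by
    funext y; unfold sx; rw [div_eq_mul_inv]
  rw [h3]
  refine h2.congr_fderiv ?_
  ext v
  simp
  ring

/-- the function `u` -/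
noncomputable def uu (x : EuclideanSpace ℝ (Fin N)) : ℝ := g (sx x0 r x)

/-- `∂_i u` -/
noncomputable def ui (i : Fin N) (x : EuclideanSpace ℝ (Fin N)) : ℝ :=
  g1 (sx x0 r x) * (-(2 / r ^ 2) * (x i - x0 i))

lemma uu_fderiv (x : EuclideanSpace ℝ (Fin N)) :
    HasFDerivAt (uu x0 r) (g1 (sx x0 r x) • ((-(2 / r ^ 2)) • innerSL ℝ (x - x0))) x :=
  (g_deriv (sx x0 r x)).comp_hasFDerivAt x (sx_deriv x0 r x)

lemma uu_partial (i : Fin N) (x : EuclideanSpace ℝ (Fin N)) :
    fderiv ℝ (uu x0 r) x (EuclideanSpace.single i 1) = ui x0 r i x := by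
  rw [(uu_fderiv x0 r x).fderiv]
  unfold ui
  simp [EuclideanSpace.inner_single_right]

lemma ui_fderiv (i : Fin N) (x : EuclideanSpace ℝ (Fin N)) :
    HasFDerivAt (ui x0 r i)
      (g1 (sx x0 r x) • ((-(2 / r ^ 2)) • (EuclideanSpace.proj i : EuclideanSpace ℝ (Fin N) →L[ℝ] ℝ)) +
        (-(2 / r ^ 2) * (x i - x0 i)) • (h (sx x0 r x) • ((-(2 / r ^ 2)) • innerSL ℝ (x - x0)))) x := by
  have h1 : HasFDerivAt (fun y => g1 (sx x0 r y)) (h (sx x0 r x) • ((-(2 / r ^ 2)) • innerSL ℝ (x - x0))) x :=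
    (g1_deriv (sx x0 r x)).comp_hasFDerivAt x (sx_deriv x0 r x)
  have h2 : HasFDerivAt (fun y : EuclideanSpace ℝ (Fin N) => -(2 / r ^ 2) * (y i - x0 i))
      ((-(2 / r ^ 2)) • (EuclideanSpace.proj i : EuclideanSpace ℝ (Fin N) →L[ℝ] ℝ)) x :=
    (((EuclideanSpace.proj i : EuclideanSpace ℝ (Fin N) →L[ℝ] ℝ).hasFDerivAt).sub_const _).const_mul _
  exact h1.mul h2

lemma ui_partial (i : Fin N) (x : EuclideanSpace ℝ (Fin N)) :
    fderiv ℝ (ui x0 r i) x (EuclideanSpace.single i 1) =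
      g1 (sx x0 r x) * (-(2 / r ^ 2)) + (4 / r ^ 4) * (x i - x0 i) ^ 2 * h (sx x0 r x) := by
  rw [(ui_fderiv x0 r i x).fderiv]
  simp [EuclideanSpace.inner_single_right]
  ring

lemma uu_cont : Continuous (uu x0 r) := g_cont.comp (sx_cont x0 r)
lemma ui_cont (i : Fin N) : Continuous (ui x0 r i) := by
  unfold ui
  have := g1_cont.comp (sx_cont x0 r)
  exact this.mul (by fun_prop)

lemma sx_nonpos (hr : 0 < r) {x : EuclideanSpace ℝ (Fin N)} (hx : x ∉ ball x0 r) : sx x0 r x ≤ 0 := by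
  rw [mem_ball, dist_eq_norm, not_lt] at hx
  unfold sx
  have : 1 ≤ ‖x - x0‖ ^ 2 / r ^ 2 := by
    rw [le_div_iff₀ (by positivity), one_mul]
    exact pow_le_pow_left₀ hr.le hx 2
  linarith

lemma sum_le (hr : 0 < r) (x : EuclideanSpace ℝ (Fin N)) :
    ∑ i, fderiv ℝ (ui x0 r i) x (EuclideanSpace.single i 1) ≤ 4 / r ^ 2 * h (sx x0 r x) := by
  have h1 : ∑ i, fderiv ℝ (ui x0 r i) x (EuclideanSpace.single i 1) =
      N * (g1 (sx x0 r x) * (-(2 / r ^ 2))) + 4 / r ^ 4 * ‖x - x0‖ ^ 2 * h (sx x0 r x) := by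
    simp_rw [ui_partial]
    rw [Finset.sum_add_distrib, Finset.sum_const, Finset.card_univ, Fintype.card_fin, nsmul_eq_mul,
      EuclideanSpace.norm_sq_eq]
    congr 1
    rw [← Finset.sum_mul, ← Finset.mul_sum]
    simp
  rw [h1]
  have h2 : 0 ≤ N * (g1 (sx x0 r x) * (2 / r ^ 2)) := by
    have := g1_nonneg (sx x0 r x); positivity
  have h3 := h_nonneg (sx x0 r x)
  have h4 : 4 / r ^ 4 * ‖x - x0‖ ^ 2 * h (sx x0 r x) ≤ 4 / r ^ 2 * h (sx x0 r x) := by
    by_cases hx : x ∈ ball x0 r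
    · refine mul_le_mul_of_nonneg_right ?_ h3
      rw [mem_ball, dist_eq_norm] at hx
      have h5 : ‖x - x0‖ ^ 2 ≤ r ^ 2 := pow_le_pow_left₀ (norm_nonneg _) hx.le 2
      calc 4 / r ^ 4 * ‖x - x0‖ ^ 2 ≤ 4 / r ^ 4 * r ^ 2 := mul_le_mul_of_nonneg_left h5 (by positivity)
        _ = 4 / r ^ 2 := by field_simp
    · rw [h_zero (sx_nonpos x0 r hr hx)]; simp
  linarith

/-- the potential -/
noncomputable def VV (x : EuclideanSpace ℝ (Fin N)) : ℝ := 4 / r ^ 2 * (h (sx x0 r x) / g (sx x0 r x))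

lemma VV_mul (x : EuclideanSpace ℝ (Fin N)) : VV x0 r x * uu x0 r x = 4 / r ^ 2 * h (sx x0 r x) := by
  unfold VV uu
  rcases le_or_gt (sx x0 r x) 0 with h0 | h0
  · rw [h_zero h0, g_zero h0]; simp
  · have := g_pos h0
    field_simp

lemma VV_meas : Measurable (VV x0 r) := by
  unfold VV
  have h1 := (h_cont.comp (sx_cont x0 r)).measurable
  have h2 := (g_cont.comp (sx_cont x0 r)).measurable
  exact (h1.div h2).const_mul _

lemma VV_nonneg (x : EuclideanSpace ℝ (Fin N)) : 0 ≤ VV x0 r x := by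
  unfold VV
  have := h_nonneg (sx x0 r x)
  have := g_nonneg (sx x0 r x)
  positivity

lemma cs_of (hr : 0 < r) (f : ℝ → ℝ) (hf : ∀ s, s ≤ 0 → f s = 0) :
    HasCompactSupport (fun x => f (sx x0 r x)) := by
  refine HasCompactSupport.intro (isCompact_closedBall x0 r) fun x hx => ?_
  exact hf _ (sx_nonpos x0 r hr fun h => hx (ball_subset_closedBall h))

/-- integration by parts -/
lemma ibp (hr : 0 < r) (φ : EuclideanSpace ℝ (Fin N) → ℝ) (hφ : ContDiff ℝ (⊤ : ℕ∞) φ)
    (hc : HasCompactSupport φ) (hφ0 : ∀ x, 0 ≤ φ x) :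
    ∫ x, uu x0 r x * lap φ x ≤ ∫ x, VV x0 r x * uu x0 r x * φ x := by
  have hφ1 : ∀ v, ContDiff ℝ (⊤ : ℕ∞) (fun y => fderiv ℝ φ y v) := fun v =>
    (hφ.fderiv_right (m := (⊤ : ℕ∞)) (by simp)).clm_apply contDiff_const
  have hφ2 : ∀ v v', ContDiff ℝ (⊤ : ℕ∞) (fun x => fderiv ℝ (fun y => fderiv ℝ φ y v) x v') := fun v v' =>
    ((hφ1 v).fderiv_right (m := (⊤ : ℕ∞)) (by simp)).clm_apply contDiff_const
  have hc1 : ∀ v, HasCompactSupport (fun y => fderiv ℝ φ y v) := fun v => hc.fderiv_apply ℝ v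
  have hc2 : ∀ v v', HasCompactSupport (fun x => fderiv ℝ (fun y => fderiv ℝ φ y v) x v') := fun v v' =>
    (hc1 v).fderiv_apply ℝ v'
  have hui : ∀ i, Continuous (fun x => fderiv ℝ (ui x0 r i) x (EuclideanSpace.single i 1)) := by
    intro i
    have : (fun x => fderiv ℝ (ui x0 r i) x (EuclideanSpace.single i 1)) = fun x =>
      g1 (sx x0 r x) * (-(2 / r ^ 2)) + (4 / r ^ 4) * (x i - x0 i) ^ 2 * h (sx x0 r x) := by
      funext x; exact ui_partial x0 r i x
    rw [this]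
    have c1 := g1_cont.comp (sx_cont x0 r)
    have c2 := h_cont.comp (sx_cont x0 r)
    exact (c1.mul continuous_const).add ((by fun_prop : Continuous fun x : EuclideanSpace ℝ (Fin N) =>
      (4 / r ^ 4) * (x i - x0 i) ^ 2).mul c2)
  have hstep : ∀ i, ∫ x, uu x0 r x * fderiv ℝ (fun y => fderiv ℝ φ y (EuclideanSpace.single i 1)) x
      (EuclideanSpace.single i 1) = ∫ x, fderiv ℝ (ui x0 r i) x (EuclideanSpace.single i 1) * φ x := by
    intro i
    set e : EuclideanSpace ℝ (Fin N) := EuclideanSpace.single i 1 with he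
    have e1 : ∫ x, uu x0 r x * fderiv ℝ (fun y => fderiv ℝ φ y e) x e =
        - ∫ x, fderiv ℝ (uu x0 r) x e * fderiv ℝ φ x e := by
      refine integral_mul_fderiv_eq_neg_fderiv_mul_of_integrable ?_ ?_ ?_ ?_ ?_
      · have : (fun x => fderiv ℝ (uu x0 r) x e * fderiv ℝ φ x e) = fun x => ui x0 r i x * fderiv ℝ φ x e := by
          funext x; rw [he, uu_partial]
        rw [this]
        exact ((ui_cont x0 r i).mul (hφ1 e).continuous).integrable_of_hasCompactSupport (hc1 e).mul_left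
      · exact ((uu_cont x0 r).mul (hφ2 e e).continuous).integrable_of_hasCompactSupport (hc2 e e).mul_left
      · exact ((uu_cont x0 r).mul (hφ1 e).continuous).integrable_of_hasCompactSupport (hc1 e).mul_left
      · exact fun x _ => (uu_fderiv x0 r x).differentiableAt
      · exact fun x _ => (hφ1 e).differentiable (by simp) x
    have e2 : ∫ x, ui x0 r i x * fderiv ℝ φ x e = - ∫ x, fderiv ℝ (ui x0 r i) x e * φ x := by
      refine integral_mul_fderiv_eq_neg_fderiv_mul_of_integrable ?_ ?_ ?_ ?_ ?_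
      · exact ((hui i).mul hφ.continuous).integrable_of_hasCompactSupport hc.mul_left
      · exact ((ui_cont x0 r i).mul (hφ1 e).continuous).integrable_of_hasCompactSupport (hc1 e).mul_left
      · exact ((ui_cont x0 r i).mul hφ.continuous).integrable_of_hasCompactSupport hc.mul_left
      · exact fun x _ => (ui_fderiv x0 r i x).differentiableAt
      · exact fun x _ => hφ.differentiable (by simp) x
    rw [e1]
    have e3 : (fun x => fderiv ℝ (uu x0 r) x e * fderiv ℝ φ x e) = fun x => ui x0 r i x * fderiv ℝ φ x e := by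
      funext x; rw [he, uu_partial]
    rw [e3, e2, neg_neg]
  have hI1 : ∀ i, Integrable (fun x => uu x0 r x * fderiv ℝ (fun y => fderiv ℝ φ y
      (EuclideanSpace.single i 1)) x (EuclideanSpace.single i 1)) := fun i =>
    ((uu_cont x0 r).mul (hφ2 _ _).continuous).integrable_of_hasCompactSupport (hc2 _ _).mul_left
  have hI2 : ∀ i, Integrable (fun x => fderiv ℝ (ui x0 r i) x (EuclideanSpace.single i 1) * φ x) := fun i =>
    ((hui i).mul hφ.continuous).integrable_of_hasCompactSupport hc.mul_left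
  calc ∫ x, uu x0 r x * lap φ x
      = ∫ x, ∑ i, uu x0 r x * fderiv ℝ (fun y => fderiv ℝ φ y (EuclideanSpace.single i 1)) x
          (EuclideanSpace.single i 1) := by
        unfold lap
        simp_rw [Finset.mul_sum]
    _ = ∑ i, ∫ x, uu x0 r x * fderiv ℝ (fun y => fderiv ℝ φ y (EuclideanSpace.single i 1)) x
          (EuclideanSpace.single i 1) := integral_finsetSum _ fun i _ => hI1 i
    _ = ∑ i, ∫ x, fderiv ℝ (ui x0 r i) x (EuclideanSpace.single i 1) * φ x :=
        Finset.sum_congr rfl fun i _ => hstep i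
    _ = ∫ x, ∑ i, fderiv ℝ (ui x0 r i) x (EuclideanSpace.single i 1) * φ x :=
        (integral_finsetSum _ fun i _ => hI2 i).symm
    _ ≤ ∫ x, VV x0 r x * uu x0 r x * φ x := by
        refine integral_mono (integrable_finsetSum _ fun i _ => hI2 i) ?_ fun x => ?_
        · simp_rw [VV_mul]
          have c2 := h_cont.comp (sx_cont x0 r)
          exact ((continuous_const.mul c2).mul hφ.continuous).integrable_of_hasCompactSupport hc.mul_left
        · show ∑ i, fderiv ℝ (ui x0 r i) x (EuclideanSpace.single i 1) * φ x ≤ VV x0 r x * uu x0 r x * φ x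
          rw [← Finset.sum_mul, VV_mul]
          exact mul_le_mul_of_nonneg_right (sum_le x0 r hr x) (hφ0 x)

end

end Pool.Agent.H7.SMP
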